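import Pool.Agent.Y81.CE.MainCol

set_option autoImplicit false

/-!
The number of edges and the number of copies of `H` need not have a common extremal graph, for
every graph `H` which is not a disjoint union of cliques and for every prescribed chromatic
number `k` of the forbidden graph, `k` larger than the chromatic number of `H`.
-/

open SimpleGraph

namespace Pool.Agent.Results.MP_2c76b2_co.NonClusterColourable

/-- `Ex n H F`: the `n`-vertex `F`-free graphs `G` for which the number of (unlabelled, not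
necessarily induced) copies of `H` in `G` is as large as possible. Here `copyCount` is Mathlib's
number of subgraphs of `G` isomorphic to `H`, and `F.Free G` is Mathlib's `F`-freeness
(no injective homomorphism from `F` to `G`). -/
def Ex {α β : Type} (n : ℕ) (H : SimpleGraph α) (F : SimpleGraph β) :
    Set (SimpleGraph (Fin n)) :=
  {G | F.Free G ∧ ∀ G' : SimpleGraph (Fin n), F.Free G' → G'.copyCount H ≤ G.copyCount H}

/-- `K₂` -/
abbrev K2 : SimpleGraph (Fin 2) := ⊤

/-- `H` is not a disjoint union of cliques: some vertex `x` has two distinct nonadjacent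
neighbours `y`, `z`. -/
def NonCluster {α : Type} (H : SimpleGraph α) : Prop :=
  ∃ x y z, H.Adj x y ∧ H.Adj x z ∧ y ≠ z ∧ ¬ H.Adj y z

theorem exists_forbidden (k : ℕ) (hk3 : 3 ≤ k) (S : ℕ) : ∃ (m : ℕ) (F : SimpleGraph (Fin m)),
    F.chromaticNumber = (k : ℕ∞) ∧ ∀ n₀ : ℕ, ∃ n ≥ n₀, ∀ h ≤ S, ∀ H : SimpleGraph (Fin h),
      NonCluster H → H.chromaticNumber < (k : ℕ∞) → Ex n H F ∩ Ex n K2 F = ∅ := by
  classical
  obtain ⟨r, rfl⟩ : ∃ r, k = r + 2 := ⟨k - 2, by omega⟩
  have hr : 1 ≤ r := by omega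
  obtain ⟨t, ht⟩ : ∃ t, t = 4 * (r + 1) ^ (S + 2) + 1 := ⟨_, rfl⟩
  obtain ⟨q, hq⟩ : ∃ q, q = (r + 1) * t := ⟨_, rfl⟩
  let F₀ := H422CE.FF r q (2 * (t + 2)) ((r + 1) * (2 * (t + 2)) + 1)
  let e := F₀.overFinIso rfl
  refine ⟨_, F₀.overFin rfl, ?_, ?_⟩
  · have hq0 : 0 < q := by rw [hq, ht]; positivity
    apply le_antisymm
    · have hcol : F₀.Colorable (r + 2) := by
        refine ⟨Coloring.mk (fun v => Sum.elim (fun x => x.1) (fun y => y.2) v) ?_⟩
        rintro (v | v) (w | w) hvw
        · exact hvw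
        · exact absurd hvw (by simp [F₀])
        · exact absurd hvw (by simp [F₀])
        · exact hvw.2
      exact (hcol.of_hom e.symm.toHom).chromaticNumber_le
    · let h1 : (⊤ : SimpleGraph (Fin (r + 2))) →g F₀ :=
        { toFun := fun i => Sum.inr (⟨0, hq0⟩, i)
          map_rel' := fun {a b} hab => ⟨rfl, hab⟩ }
      have h2 := chromaticNumber_mono_of_hom (e.toHom.comp h1)
      rwa [chromaticNumber_top, Fintype.card_fin] at h2
  · intro n₀
    obtain ⟨n, hn, h⟩ := Pool.Agent.Y81.CE.mainCol r t S hr (by omega) n₀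
    rw [← hq] at h
    refine ⟨n, hn, ?_⟩
    intro m hm H hH hchi
    have hHcol : H.Colorable (r + 1) := by
      obtain ⟨c, hc⟩ := ENat.ne_top_iff_exists.1 (ne_top_of_lt hchi)
      rw [← hc] at hchi
      have h5 : c < r + 2 := by exact_mod_cast hchi
      rw [← chromaticNumber_le_iff_colorable, ← hc]
      exact_mod_cast Nat.le_of_lt_succ h5
    obtain ⟨x, y, z, hxy, hxz, hyz, hnyz⟩ := hH
    obtain ⟨m', rfl⟩ : ∃ m', m = m' + 2 := by
      refine ⟨m - 2, ?_⟩
      have h1 := x.2
      have h2 := y.2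
      have h3 : x.val ≠ y.val := fun h => hxy.ne (Fin.ext h)
      omega
    have h4 := h m' (by omega) H hHcol ⟨x, y, z, hxy, hxz, hyz, hnyz⟩
    have hfree : ∀ G : SimpleGraph (Fin n), (F₀.overFin rfl).Free G ↔ F₀.Free G :=
      fun G => (free_congr_left e).symm
    rw [← h4]
    ext G
    simp only [Ex, H422CE.Ex, Set.mem_inter_iff, Set.mem_ofPred_eq, hfree]
    exact Iff.rfl

/-- **Disproof, for every non-cluster graph.** For every `k ≥ 3` and every `S` there is a graph `F`
with `χ(F) = k` such that for infinitely many `n` the following holds simultaneously for all graphs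
`H` with at most `S` vertices and `χ(H) < k` which are not disjoint unions of cliques: no
`n`-vertex `F`-free graph maximises both the number of copies of `H` and the number of edges. Hence
the assertion of the question fails for every graph `H` which is not a disjoint union of cliques,
and in particular it is not true that for every `H` there is `r(H)` such that for every `F` with
`χ(F) > r(H)` and all large `n` the sets `Ex(n,H,F)` and `Ex(n,K₂,F)` intersect. -/
theorem result :
    (∀ k : ℕ, 3 ≤ k → ∀ S : ℕ, ∃ (m : ℕ) (F : SimpleGraph (Fin m)), F.chromaticNumber = (k : ℕ∞) ∧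
      ∀ n₀ : ℕ, ∃ n ≥ n₀, ∀ h ≤ S, ∀ H : SimpleGraph (Fin h), NonCluster H →
        H.chromaticNumber < (k : ℕ∞) → Ex n H F ∩ Ex n K2 F = ∅) ∧
    (∀ (h : ℕ) (H : SimpleGraph (Fin h)), NonCluster H →
      ¬ ∃ r : ℕ, ∀ (m : ℕ) (F : SimpleGraph (Fin m)), (r : ℕ∞) < F.chromaticNumber →
        ∃ n₀ : ℕ, ∀ n ≥ n₀, (Ex n H F ∩ Ex n K2 F).Nonempty) ∧
    ¬ (∀ (h : ℕ) (H : SimpleGraph (Fin h)), ∃ r : ℕ, ∀ (m : ℕ) (F : SimpleGraph (Fin m)),
      (r : ℕ∞) < F.chromaticNumber →
        ∃ n₀ : ℕ, ∀ n ≥ n₀, (Ex n H F ∩ Ex n K2 F).Nonempty) := by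
  have key : ∀ (h : ℕ) (H : SimpleGraph (Fin h)), NonCluster H →
      ¬ ∃ r : ℕ, ∀ (m : ℕ) (F : SimpleGraph (Fin m)), (r : ℕ∞) < F.chromaticNumber →
        ∃ n₀ : ℕ, ∀ n ≥ n₀, (Ex n H F ∩ Ex n K2 F).Nonempty := by
    rintro h H hH ⟨r, hr⟩
    obtain ⟨m, F, hF, hn⟩ := exists_forbidden (h + r + 3) (by omega) h
    obtain ⟨n₀, hn₀⟩ := hr m F (by rw [hF]; exact_mod_cast (by omega : r < h + r + 3))
    obtain ⟨n, hnn, hemp⟩ := hn n₀
    have h1 := hn₀ n hnn
    have h2 : H.chromaticNumber ≤ (h : ℕ∞) := by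
      have h3 := H.colorable_of_fintype
      rw [Fintype.card_fin] at h3
      exact h3.chromaticNumber_le
    have h4 : H.chromaticNumber < ((h + r + 3 : ℕ) : ℕ∞) :=
      lt_of_le_of_lt h2 (by exact_mod_cast (by omega : h < h + r + 3))
    rw [hemp h le_rfl H hH h4] at h1
    exact Set.not_nonempty_empty h1
  refine ⟨exists_forbidden, key, fun hall => ?_⟩
  refine key 3 (pathGraph 3) ⟨1, 0, 2, ?_, ?_, ?_, ?_⟩ (hall 3 (pathGraph 3))
  · simp [pathGraph_adj]
  · simp [pathGraph_adj]
  · decide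
  · simp [pathGraph_adj]

end Pool.Agent.Results.MP_2c76b2_co.NonClusterColourable
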