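import Pool.Agent.Y438.CS.Main

set_option autoImplicit false

/-!
Counting stars and counting edges need not have a common extremal graph: one forbidden graph, of
any prescribed chromatic number at least three, for all stars with at least two leaves.
-/

open SimpleGraph

namespace Pool.Agent.Results.MP_2c76b2_co.StarsNoCommonExtremal

/-- `Ex n H F`: the `n`-vertex `F`-free graphs `G` for which the number of (unlabelled, not
necessarily induced) copies of `H` in `G` is as large as possible. Here `copyCount` is Mathlib's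
number of subgraphs of `G` isomorphic to `H`, and `F.Free G` is Mathlib's `F`-freeness
(no injective homomorphism from `F` to `G`). -/
def Ex {α β : Type} (n : ℕ) (H : SimpleGraph α) (F : SimpleGraph β) :
    Set (SimpleGraph (Fin n)) :=
  {G | F.Free G ∧ ∀ G' : SimpleGraph (Fin n), F.Free G' → G'.copyCount H ≤ G.copyCount H}

/-- `K₂` -/
abbrev K2 : SimpleGraph (Fin 2) := ⊤

/-- The star `K_{1,s}`: the vertex `0` is joined to the `s` other vertices. -/
abbrev Star (s : ℕ) : SimpleGraph (Fin (s + 1)) := starGraph 0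

/-- The assertion of Q1 for the graph `H`: there is `r` such that for every graph `F` with
`χ(F) > r` and all large `n` some `n`-vertex `F`-free graph maximises both the number of copies
of `H` and the number of edges. -/
def HasCommon {α : Type} (H : SimpleGraph α) : Prop :=
  ∃ r : ℕ, ∀ (m : ℕ) (F : SimpleGraph (Fin m)), (r : ℕ∞) < F.chromaticNumber →
    ∃ n₀ : ℕ, ∀ n ≥ n₀, (Ex n H F ∩ Ex n K2 F).Nonempty

theorem exists_forbidden (c : ℕ) (hc : 3 ≤ c) : ∃ (m : ℕ) (F : SimpleGraph (Fin m)),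
    F.chromaticNumber = c ∧
      ∀ S n₀ : ℕ, ∃ n ≥ n₀, ∀ s, 2 ≤ s → s ≤ S → Ex n (Star s) F ∩ Ex n K2 F = ∅ := by
  classical
  obtain ⟨r, rfl⟩ : ∃ r, c = r + 2 := ⟨c - 2, by omega⟩
  have hr : 1 ≤ r := by omega
  obtain ⟨k, hk⟩ : ∃ k, k = 12 * r + 2 := ⟨_, rfl⟩
  obtain ⟨q, hq⟩ : ∃ q, q = 12 * r * (r + 1) := ⟨_, rfl⟩
  let F₀ := H422CE.FF r q (2 * k) ((r + 1) * (2 * k) + 1)
  let e := F₀.overFinIso rfl
  refine ⟨_, F₀.overFin rfl, ?_, ?_⟩
  · apply le_antisymm
    · let C : F₀.Coloring (Fin (r + 2)) := Coloring.mk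
        (Sum.elim (fun x => x.1) (fun x => x.2)) (by
          rintro (a | a) (b | b) h
          · exact h
          · exact absurd h (by simp [F₀])
          · exact absurd h (by simp [F₀])
          · exact h.2)
      have h1 : (F₀.overFin rfl).Colorable (r + 2) :=
        ⟨(C.comp e.symm.toHom : (F₀.overFin rfl) →g ⊤)⟩
      exact_mod_cast h1.chromaticNumber_le
    · have hq0 : 0 < q := by rw [hq]; positivity
      let h1 : (⊤ : SimpleGraph (Fin (r + 2))) →g F₀ :=
        { toFun := fun i => Sum.inr (⟨0, hq0⟩, i)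
          map_rel' := fun {a b} hab => ⟨rfl, hab⟩ }
      have h2 := chromaticNumber_mono_of_hom (e.toHom.comp h1)
      rw [chromaticNumber_top, Fintype.card_fin] at h2
      exact_mod_cast h2
  · intro S n₀
    obtain ⟨n, hn, h⟩ := Pool.Agent.Y438.CS.main2 r hr S n₀
    rw [← hk, ← hq] at h
    refine ⟨n, hn, fun s hs1 hs2 => ?_⟩
    have hfree : ∀ G : SimpleGraph (Fin n), (F₀.overFin rfl).Free G ↔ F₀.Free G :=
      fun G => (free_congr_left e).symm
    rw [← h s hs1 hs2]
    ext G
    simp only [Ex, H422CE.Ex, Set.mem_inter_iff, Set.mem_ofPred_eq, hfree]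
    exact Iff.rfl

theorem not_hasCommon (s : ℕ) (hs : 2 ≤ s) : ¬ HasCommon (Star s) := by
  rintro ⟨r, hr⟩
  obtain ⟨m, F, hF, hn⟩ := exists_forbidden (r + 3) (by omega)
  obtain ⟨n₀, hn₀⟩ := hr m F (by
    rw [hF]
    exact_mod_cast (by omega : r < r + 3))
  obtain ⟨n, hnn, hemp⟩ := hn s n₀
  have := hn₀ n hnn
  rw [hemp s hs le_rfl] at this
  exact Set.not_nonempty_empty this

/-- there is an edge-extremal graph if the forbidden graph has an edge -/
theorem Ex_nonempty {m : ℕ} (F : SimpleGraph (Fin m)) (hF : ((1 : ℕ) : ℕ∞) < F.chromaticNumber)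
    (n : ℕ) : ∃ G, G ∈ Ex n K2 F := by
  classical
  have hfree : F.Free (⊥ : SimpleGraph (Fin n)) := by
    rintro ⟨f⟩
    have hcol : F.Colorable 1 := by
      refine ⟨Coloring.mk (fun _ => 0) ?_⟩
      intro v w h
      exact absurd (f.toHom.map_adj h) (by simp)
    exact absurd (hcol.chromaticNumber_le) (not_le.2 (by exact_mod_cast hF))
  obtain ⟨G, hG, hmax⟩ := Set.exists_max_image {G : SimpleGraph (Fin n) | F.Free G}
    (fun G => G.copyCount K2) (Set.toFinite _) ⟨⊥, hfree⟩
  exact ⟨G, hG, fun G' hG' => hmax G' hG'⟩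

theorem hasCommon (s : ℕ) (hs : s ≤ 1) : HasCommon (Star s) := by
  classical
  refine ⟨1, fun m F hF => ⟨0, fun n _ => ?_⟩⟩
  obtain ⟨G, hG⟩ := Ex_nonempty F hF n
  refine ⟨G, ⟨hG.1, fun G' hG' => ?_⟩, hG⟩
  rcases Nat.le_one_iff_eq_zero_or_eq_one.1 hs with rfl | rfl
  · have h1 := H422CE.card_copy_eq G (Star 0)
    have h2 := H422CE.card_copy_eq G' (Star 0)
    rw [Pool.Agent.Y438.CS.card_copy_star] at h1 h2
    simp only [Nat.descFactorial_zero] at h1 h2
    rw [h1] at h2
    have h3 : 0 < Nat.card (Star 0 ≃g Star 0) := by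
      have h4 : Nonempty (Star 0 ≃g Star 0) := ⟨Iso.refl⟩
      have h5 : Finite (Star 0 ≃g Star 0) :=
        Finite.of_injective (fun e : Star 0 ≃g Star 0 => (e : Fin (0 + 1) → Fin (0 + 1)))
          DFunLike.coe_injective
      exact Nat.card_pos
    exact (Nat.eq_of_mul_eq_mul_left h3 h2).symm.le
  · have h1 : Star 1 = K2 := by
      ext a b
      rw [starGraph_adj, top_adj]
      constructor
      · exact fun h => h.1
      · intro h
        refine ⟨h, ?_⟩
        fin_cases a <;> fin_cases b <;> simp_all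
    rw [h1]
    exact hG.2 G' hG'

/-- **Disproof of Q1, for all stars at once.** For every `c ≥ 3` there is a graph `F` with
chromatic number exactly `c` such that for every `S` there are infinitely many `n` for which, for
all `2 ≤ s ≤ S`, no `n`-vertex `F`-free graph maximises both the number of copies of the star
`K_{1,s}` and the number of edges. Hence the assertion of Q1 holds for the star `K_{1,s}` only in
the trivial cases `s ≤ 1`. -/
theorem result :
    (∀ c : ℕ, 3 ≤ c → ∃ (m : ℕ) (F : SimpleGraph (Fin m)), F.chromaticNumber = c ∧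
      ∀ S n₀ : ℕ, ∃ n ≥ n₀, ∀ s, 2 ≤ s → s ≤ S → Ex n (Star s) F ∩ Ex n K2 F = ∅) ∧
    ∀ s : ℕ, HasCommon (Star s) ↔ s ≤ 1 := by
  refine ⟨exists_forbidden, fun s => ⟨fun h => ?_, hasCommon s⟩⟩
  by_contra hs
  exact not_hasCommon s (by omega) h

end Pool.Agent.Results.MP_2c76b2_co.StarsNoCommonExtremal
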